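import Pool.Agent.Helper5.WD.Stmts

set_option autoImplicit false

open Finset Pool.Agent.Helper8.UN Pool.Agent.Helper5.FV

namespace Pool.Agent.Helper5.WD

/-- `f` is constant on `e` minus `y` -/
def gbl3n_Cst {n : ℕ} (f : Fin n → ℕ) (y : Fin n) (e : Finset (Fin n)) : Prop :=
  ∀ u ∈ e, ∀ v ∈ e, u ≠ y → v ≠ y → f u = f v

/-- some class is large -/
def gbl3n_Big {n : ℕ} (W' : Finset (Fin n)) (k s : ℕ) (f : Fin n → ℕ) : Prop :=
  ∃ i ∈ Finset.Icc 1 k, s ≤ (W'.filter (fun v => f v = i)).card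

/-- the edges which may block -/
def gbl3n_F {n : ℕ} (E : Finset (Finset (Fin n))) (W : Finset (Fin n)) (y : Fin n) (r : ℕ) :
    Finset (Finset (Fin n)) := E.filter (fun e => e ⊆ W ∧ y ∈ e ∧ 3 ≤ e.card ∧ e.card < r)

open scoped Classical in
theorem gbl3n_pt (n r k : ℕ) (E : Finset (Finset (Fin n))) (W W' : Finset (Fin n))
    (y : Fin n) (hr : 4 ≤ r) (hW : ∀ z ∈ W, z ≠ y → z ∈ W') (f : Fin n → ℕ) :
    bl3 E W k f y ≤ ((gbl3n_F E W y r).filter (fun e => gbl3n_Cst f y e)).card +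
      (if gbl3n_Big W' k (r - 1) f then n else 0) := by
  classical
  by_cases hb : gbl3n_Big W' k (r - 1) f
  · rw [if_pos hb]
    refine le_trans ?_ (Nat.le_add_left _ _)
    unfold bl3
    have hsub : (Finset.Icc 1 k).filter (fun i => ∃ e ∈ E, e ⊆ W ∧ y ∈ e ∧ 3 ≤ e.card ∧
        ∀ u ∈ e, u ≠ y → f u = i) ⊆ Finset.univ.image f := by
      intro i hi
      obtain ⟨e, _, _, _, hc, hfe⟩ := (Finset.mem_filter.1 hi).2
      obtain ⟨u, hu, huy⟩ := Finset.exists_mem_ne (by omega : 1 < e.card) y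
      exact Finset.mem_image.2 ⟨u, Finset.mem_univ _, hfe u hu huy⟩
    refine le_trans (Finset.card_le_card hsub) (le_trans Finset.card_image_le ?_)
    rw [Finset.card_univ, Fintype.card_fin]
  · rw [if_neg hb, add_zero]
    unfold bl3
    have hex : ∀ i : ℕ, i ∈ (Finset.Icc 1 k).filter (fun i => ∃ e ∈ E, e ⊆ W ∧ y ∈ e ∧
        3 ≤ e.card ∧ ∀ u ∈ e, u ≠ y → f u = i) →
        ∃ e ∈ gbl3n_F E W y r, ∀ u ∈ e, u ≠ y → f u = i := by
      intro i hi
      have hi' := Finset.mem_filter.1 hi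
      obtain ⟨e, he, heW, hye, hc, hfe⟩ := hi'.2
      refine ⟨e, ?_, hfe⟩
      unfold gbl3n_F
      refine Finset.mem_filter.2 ⟨he, heW, hye, hc, ?_⟩
      by_contra hcon
      apply hb
      refine ⟨i, hi'.1, ?_⟩
      have hsub : e.erase y ⊆ W'.filter (fun v => f v = i) := by
        intro u hu
        have hu' := Finset.mem_erase.1 hu
        exact Finset.mem_filter.2 ⟨hW u (heW hu'.2) hu'.1, hfe u hu'.2 hu'.1⟩
      have h1 := Finset.card_le_card hsub
      rw [Finset.card_erase_of_mem hye] at h1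
      omega
    choose! g hgF hg using hex
    refine Finset.card_le_card_of_injOn g ?_ ?_
    · intro i hi
      refine Finset.mem_filter.2 ⟨hgF i hi, ?_⟩
      intro u hu v hv huy hvy
      rw [hg i hi u hu huy, hg i hi v hv hvy]
    · intro i hi j hj hij
      have hF := hgF i hi
      unfold gbl3n_F at hF
      have hc := (Finset.mem_filter.1 hF).2.2.2.1
      obtain ⟨u, hu, huy⟩ := Finset.exists_mem_ne (by omega : 1 < (g i).card) y
      have h1 := hg i hi u hu huy
      have h2 := hg j hj u (hij ▸ hu) huy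
      rw [← h1, ← h2]

open scoped Classical in
theorem gbl3n_gen (n D r k : ℕ) (E : Finset (Finset (Fin n))) (W W' : Finset (Fin n))
    (y : Fin n) (hDk : D < k) (hr : 4 ≤ r)
    (hW : ∀ z ∈ W, z ≠ y → z ∈ W') (M : Finset (Fin n → ℕ)) (T : ℕ)
    (h1 : ∀ T' : Finset (Fin n), T' ⊆ W' → T'.Nonempty →
      (k - D) ^ (T'.card - 1) * (M.filter (fun f => ∃ i, ∀ v ∈ T', f v = i)).card ≤ T)
    (h2 : (k - D) ^ (r - 1 - 1) * (M.filter (fun f => ∃ i ∈ Finset.Icc 1 k,
      r - 1 ≤ (W'.filter (fun v => f v = i)).card)).card ≤ n.choose (r - 1) * T) :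
    ∑ f ∈ M, (bl3 E W k f y : ℝ) ≤ T *
      (ws E r ((k : ℝ) - D) y + n * n.choose (r - 1) / ((k : ℝ) - D) ^ (r - 2)) := by
  classical
  have hkD : (0 : ℝ) < (k : ℝ) - D := by
    have : (D : ℝ) < k := by exact_mod_cast hDk
    linarith
  have hcast : ((k - D : ℕ) : ℝ) = (k : ℝ) - D := by
    rw [Nat.cast_sub hDk.le]
  have hsum : ∑ f ∈ M, bl3 E W k f y ≤
      ∑ e ∈ gbl3n_F E W y r, (M.filter (fun f => gbl3n_Cst f y e)).card +
        n * (M.filter (fun f => gbl3n_Big W' k (r - 1) f)).card := by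
    calc ∑ f ∈ M, bl3 E W k f y ≤ ∑ f ∈ M,
        (((gbl3n_F E W y r).filter (fun e => gbl3n_Cst f y e)).card +
          (if gbl3n_Big W' k (r - 1) f then n else 0)) :=
          Finset.sum_le_sum (fun f _ => gbl3n_pt n r k E W W' y hr hW f)
      _ = _ := by
        rw [Finset.sum_add_distrib]
        congr 1
        · simp only [Finset.card_filter]
          rw [Finset.sum_comm]
        · rw [← Finset.sum_filter, Finset.sum_const, smul_eq_mul, mul_comm]
  have hT0 : (0 : ℝ) ≤ T := Nat.cast_nonneg _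
  have hF : ∀ e ∈ gbl3n_F E W y r, ((M.filter (fun f => gbl3n_Cst f y e)).card : ℝ) ≤
      T * (1 / ((k : ℝ) - D)) ^ (e.card - 2) := by
    intro e he
    unfold gbl3n_F at he
    obtain ⟨_, heW, hye, hc3, _⟩ := Finset.mem_filter.1 he
    have hcard : (e.erase y).card = e.card - 1 := Finset.card_erase_of_mem hye
    have hne : (e.erase y).Nonempty := by
      rw [← Finset.card_pos, hcard]
      omega
    obtain ⟨z, hz⟩ := hne
    have hsubW : e.erase y ⊆ W' := by
      intro u hu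
      have hu' := Finset.mem_erase.1 hu
      exact hW u (heW hu'.2) hu'.1
    have h3 := h1 (e.erase y) hsubW ⟨z, hz⟩
    have h4 : (M.filter (fun f => gbl3n_Cst f y e)).card ≤
        (M.filter (fun f => ∃ i, ∀ v ∈ e.erase y, f v = i)).card := by
      refine Finset.card_le_card ?_
      intro f hf
      have hf' := Finset.mem_filter.1 hf
      refine Finset.mem_filter.2 ⟨hf'.1, f z, ?_⟩
      intro v hv
      have hv' := Finset.mem_erase.1 hv
      have hz' := Finset.mem_erase.1 hz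
      exact hf'.2 v hv'.2 z hz'.2 hv'.1 hz'.1
    have hexp : (e.erase y).card - 1 = e.card - 2 := by omega
    rw [hexp] at h3
    have h5 : (k - D) ^ (e.card - 2) * (M.filter (fun f => gbl3n_Cst f y e)).card ≤ T :=
      le_trans (Nat.mul_le_mul_left _ h4) h3
    have h6 : (((k - D) ^ (e.card - 2) * (M.filter (fun f => gbl3n_Cst f y e)).card : ℕ) : ℝ)
        ≤ T := by
      exact_mod_cast h5
    rw [Nat.cast_mul, Nat.cast_pow, hcast] at h6
    rw [one_div, inv_pow, ← div_eq_mul_inv, le_div_iff₀ (pow_pos hkD _)]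
    linarith
  have hA : (∑ e ∈ gbl3n_F E W y r, ((M.filter (fun f => gbl3n_Cst f y e)).card : ℝ)) ≤
      T * ws E r ((k : ℝ) - D) y := by
    calc (∑ e ∈ gbl3n_F E W y r, ((M.filter (fun f => gbl3n_Cst f y e)).card : ℝ)) ≤
        ∑ e ∈ gbl3n_F E W y r, T * (1 / ((k : ℝ) - D)) ^ (e.card - 2) := Finset.sum_le_sum hF
      _ = T * ∑ e ∈ gbl3n_F E W y r, (1 / ((k : ℝ) - D)) ^ (e.card - 2) := by
        rw [Finset.mul_sum]
      _ ≤ T * ws E r ((k : ℝ) - D) y := by
        refine mul_le_mul_of_nonneg_left ?_ hT0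
        unfold ws
        refine Finset.sum_le_sum_of_subset_of_nonneg ?_ ?_
        · intro e he
          unfold gbl3n_F at he
          obtain ⟨he1, _, hye, hc3, hcr⟩ := Finset.mem_filter.1 he
          exact Finset.mem_filter.2 ⟨he1, hye, hc3, hcr⟩
        · intro e _ _
          exact pow_nonneg (div_nonneg zero_le_one hkD.le) _
  have hB : ((M.filter (fun f => gbl3n_Big W' k (r - 1) f)).card : ℝ) ≤
      n.choose (r - 1) * T / ((k : ℝ) - D) ^ (r - 2) := by
    rw [le_div_iff₀ (pow_pos hkD _)]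
    have h3 : (((k - D) ^ (r - 1 - 1) * (M.filter (fun f => gbl3n_Big W' k (r - 1) f)).card : ℕ) : ℝ)
        ≤ ((n.choose (r - 1) * T : ℕ) : ℝ) := by
      exact_mod_cast h2
    rw [Nat.cast_mul, Nat.cast_mul, Nat.cast_pow, hcast] at h3
    have h4 : r - 1 - 1 = r - 2 := by omega
    rw [h4] at h3
    linarith
  have hn0 : (0 : ℝ) ≤ n := Nat.cast_nonneg _
  calc ∑ f ∈ M, (bl3 E W k f y : ℝ) = ((∑ f ∈ M, bl3 E W k f y : ℕ) : ℝ) := by
        rw [Nat.cast_sum]
    _ ≤ ((∑ e ∈ gbl3n_F E W y r, (M.filter (fun f => gbl3n_Cst f y e)).card +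
        n * (M.filter (fun f => gbl3n_Big W' k (r - 1) f)).card : ℕ) : ℝ) := by
        exact_mod_cast hsum
    _ = (∑ e ∈ gbl3n_F E W y r, ((M.filter (fun f => gbl3n_Cst f y e)).card : ℝ)) +
        n * ((M.filter (fun f => gbl3n_Big W' k (r - 1) f)).card : ℝ) := by
        push_cast
        ring
    _ ≤ T * ws E r ((k : ℝ) - D) y +
        n * (n.choose (r - 1) * T / ((k : ℝ) - D) ^ (r - 2)) := by
        exact add_le_add hA (mul_le_mul_of_nonneg_left hB hn0)
    _ = T * (ws E r ((k : ℝ) - D) y + n * n.choose (r - 1) / ((k : ℝ) - D) ^ (r - 2)) := by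
        ring

theorem st_GBL3 (h1 : ST_GMS) (h2 : ST_GBGC) : ST_GBL3 := by
  classical
  intro n D k0 r k E W W' y hT hGD hk0 hDk hr hy hW'
  have hW : ∀ z ∈ W, z ≠ y → z ∈ W' := by
    intro z hz hzy
    rcases hW' with h | h
    · rw [h]
      exact hz
    · rw [h]
      exact Finset.mem_erase.2 ⟨hzy, hz⟩
  have h3 := h2 n D k0 k (r - 1) E W' hT hGD hk0 (by omega)
  constructor
  · exact gbl3n_gen n D r k E W W' y hDk hr hW _ _
      (fun T' hT' hne => (h1 n D k0 k E W' T' hT hGD hk0 hT' hne).1) h3.1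
  · exact gbl3n_gen n D r k E W W' y hDk hr hW _ _
      (fun T' hT' hne => (h1 n D k0 k E W' T' hT hGD hk0 hT' hne).2) h3.2

end Pool.Agent.Helper5.WD
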