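import Pool.Agent.Helper5.WD.Stmts

/-! Row GRW: Rosenfeld's induction. -/

set_option autoImplicit false

open Finset Pool.Agent.Helper8.UN Pool.Agent.Helper5.FV

namespace Pool.Agent.Helper5.WD

theorem grwn_mf {α : Type} (p : α → Prop) (dp : DecidablePred p) (s : Finset α) (a : α) :
    a ∈ @Finset.filter α p dp s ↔ a ∈ s ∧ p a := Finset.mem_filter

/-- forgetting the colours on `U'` -/
def grwn_r {n : ℕ} (U' : Finset (Fin n)) (f : Fin n → ℕ) : Fin n → ℕ :=
  fun v => if v ∈ U' then 0 else f v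

theorem grwn_cc {n : ℕ} (E : Finset (Finset (Fin n))) (W U' : Finset (Fin n)) (k : ℕ)
    (f : Fin n → ℕ) (hf : f ∈ CC E W k) : grwn_r U' f ∈ CC E (W \ U') k := by
  classical
  unfold CC at hf ⊢
  rw [grwn_mf, Fintype.mem_piFinset] at hf ⊢
  obtain ⟨h1, h2⟩ := hf
  refine ⟨?_, ?_⟩
  · intro v
    have h3 := h1 v
    unfold grwn_r
    by_cases hv : v ∈ U'
    · rw [if_pos hv, if_neg (fun h => (mem_sdiff.1 h).2 hv)]
      exact mem_singleton_self 0
    · rw [if_neg hv]
      by_cases hw : v ∈ W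
      · rw [if_pos (mem_sdiff.2 ⟨hw, hv⟩)]
        rw [if_pos hw] at h3
        exact h3
      · rw [if_neg (fun h => hw (mem_sdiff.1 h).1)]
        rw [if_neg hw] at h3
        exact h3
  · intro e he hsub
    obtain ⟨u, hu, v, hv, huv⟩ := h2 e he (hsub.trans sdiff_subset)
    refine ⟨u, hu, v, hv, ?_⟩
    unfold grwn_r
    rw [if_neg (mem_sdiff.1 (hsub hu)).2, if_neg (mem_sdiff.1 (hsub hv)).2]
    exact huv

theorem grwn_ss {n : ℕ} (E : Finset (Finset (Fin n))) (W U : Finset (Fin n)) (k : ℕ) (a : Fin n)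
    (ha : a ∈ U) (hU : U ⊆ W) (f : Fin n → ℕ) (hf : f ∈ SS E W k) (hc : ∀ u ∈ U, f u = f a) :
    grwn_r (U.erase a) f ∈ SS E (W \ U.erase a) k := by
  classical
  unfold SS at hf ⊢
  rw [grwn_mf] at hf ⊢
  refine ⟨grwn_cc E W _ k f hf.1, ?_⟩
  intro i hi
  obtain ⟨v, hv, hvi⟩ := hf.2 i hi
  by_cases hvU : v ∈ U.erase a
  · refine ⟨a, mem_sdiff.2 ⟨hU ha, notMem_erase a U⟩, ?_⟩
    unfold grwn_r
    rw [if_neg (notMem_erase a U), ← hc v (mem_of_mem_erase hvU)]
    exact hvi
  · refine ⟨v, mem_sdiff.2 ⟨hv, hvU⟩, ?_⟩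
    unfold grwn_r
    rw [if_neg hvU]
    exact hvi

theorem grwn_inj {n : ℕ} (U : Finset (Fin n)) (a : Fin n) (f g : Fin n → ℕ)
    (hf : ∀ u ∈ U, f u = f a) (hg : ∀ u ∈ U, g u = g a)
    (h : grwn_r (U.erase a) f = grwn_r (U.erase a) g) : f = g := by
  have h0 : ∀ v, v ∉ U.erase a → f v = g v := by
    intro v hv
    have h1 := congrFun h v
    unfold grwn_r at h1
    rw [if_neg hv, if_neg hv] at h1
    exact h1
  funext v
  by_cases hv : v ∈ U.erase a
  · rw [hf v (mem_of_mem_erase hv), hg v (mem_of_mem_erase hv)]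
    exact h0 a (notMem_erase a U)
  · exact h0 v hv


/-- the colour of `T` -/
noncomputable def grwn_v {n : ℕ} (f : Fin n → ℕ) (T : Finset (Fin n)) : ℕ :=
  open scoped Classical in if h : T.Nonempty then f h.choose else 0

theorem grwn_v_eq {n : ℕ} (f : Fin n → ℕ) (T : Finset (Fin n)) (i : ℕ) (h : T.Nonempty)
    (hi : ∀ v ∈ T, f v = i) : grwn_v f T = i := by
  unfold grwn_v
  rw [dif_pos h]
  exact hi _ h.choose_spec

/-- the edges which may block -/
def grwn_F {n : ℕ} (E : Finset (Finset (Fin n))) (W : Finset (Fin n)) (y : Fin n) (r : ℕ) :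
    Finset (Finset (Fin n)) := E.filter (fun e => e ⊆ W ∧ y ∈ e ∧ 3 ≤ e.card ∧ e.card < r)

open scoped Classical in
theorem grwn_pt (n r k : ℕ) (E : Finset (Finset (Fin n))) (W : Finset (Fin n)) (hT : Two E)
    (y : Fin n) (hr : 4 ≤ r) (f : Fin n → ℕ) :
    bk E W k f y ≤ (nb E W y).card +
      ((grwn_F E W y r).filter (fun e => ∃ i, ∀ v ∈ e.erase y, f v = i)).card +
      ((Finset.powersetCard (r - 1) (W.erase y)).filter (fun T => ∃ i, ∀ v ∈ T, f v = i)).card := by
  classical
  have hsub : (Finset.Icc 1 k).filter (fun i => Blk E W f y i) ⊆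
      ((nb E W y).image f ∪ ((grwn_F E W y r).filter (fun e => ∃ i, ∀ v ∈ e.erase y, f v = i)).image
        (fun e => grwn_v f (e.erase y))) ∪
      ((Finset.powersetCard (r - 1) (W.erase y)).filter
        (fun T => ∃ i, ∀ v ∈ T, f v = i)).image (grwn_v f) := by
    intro i hi
    obtain ⟨e, he, heW, hye, hfe⟩ := (Finset.mem_filter.1 hi).2
    have hc2 := hT e he
    have hce : (e.erase y).card = e.card - 1 := Finset.card_erase_of_mem hye
    have hne : (e.erase y).Nonempty := by
      rw [← Finset.card_pos]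
      omega
    have hcol : ∀ v ∈ e.erase y, f v = i := by
      intro v hv
      have hv' := Finset.mem_erase.1 hv
      exact hfe v hv'.2 hv'.1
    by_cases h3 : 3 ≤ e.card
    · by_cases hlt : e.card < r
      · refine Finset.mem_union_left _ (Finset.mem_union_right _ ?_)
        refine Finset.mem_image.2 ⟨e, ?_, grwn_v_eq f _ i hne hcol⟩
        exact Finset.mem_filter.2 ⟨Finset.mem_filter.2 ⟨he, heW, hye, h3, hlt⟩, i, hcol⟩
      · refine Finset.mem_union_right _ ?_
        obtain ⟨T, hTs, hTc⟩ := Finset.exists_subset_card_eq (s := e.erase y) (n := r - 1)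
          (by omega)
        refine Finset.mem_image.2 ⟨T, ?_, grwn_v_eq f _ i ?_ fun v hv => hcol v (hTs hv)⟩
        · refine Finset.mem_filter.2 ⟨Finset.mem_powersetCard.2 ⟨?_, hTc⟩, i,
            fun v hv => hcol v (hTs hv)⟩
          exact hTs.trans (Finset.erase_subset_erase y heW)
        · rw [← Finset.card_pos]
          omega
    · refine Finset.mem_union_left _ (Finset.mem_union_left _ ?_)
      obtain ⟨z, hz⟩ := Finset.card_eq_one.1 (by omega : (e.erase y).card = 1)
      have hz' : z ∈ e.erase y := by rw [hz]; exact Finset.mem_singleton_self z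
      have hz1 := Finset.mem_erase.1 hz'
      refine Finset.mem_image.2 ⟨z, ?_, hcol z hz'⟩
      unfold nb
      refine Finset.mem_filter.2 ⟨heW hz1.2, hz1.1, ?_⟩
      have h5 : ({y, z} : Finset (Fin n)) = e := by
        rw [← Finset.insert_erase hye, hz]
      rw [h5]
      exact he
  unfold bk
  refine le_trans (Finset.card_le_card hsub) ?_
  refine le_trans (Finset.card_union_le _ _) (Nat.add_le_add ?_ Finset.card_image_le)
  exact le_trans (Finset.card_union_le _ _) (Nat.add_le_add Finset.card_image_le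
    Finset.card_image_le)

open scoped Classical in
theorem grwn_gen (n D0 r k0 k : ℕ) (E : Finset (Finset (Fin n))) (W : Finset (Fin n))
    (hT : Two E) (hr : 4 ≤ r) (hk0 : D0 + 1 < k0) (hk : k0 ≤ k) (hNB : NB E D0)
    (y : Fin n) (hy : y ∈ W)
    (hw : ws E r ((k0 : ℝ) - (D0 + 1)) y +
      n.choose (r - 1) / ((k0 : ℝ) - (D0 + 1)) ^ (r - 2) ≤ 1) (M : Finset (Fin n → ℕ))
    (h1 : ∀ T' : Finset (Fin n), T' ⊆ W.erase y → T'.Nonempty →
      (k - (D0 + 1)) ^ (T'.card - 1) * (M.filter (fun f => ∃ i, ∀ v ∈ T', f v = i)).card ≤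
        M.card) :
    (k - (D0 + 1)) * M.card ≤ ∑ f ∈ M, (k - bk E W k f y) := by
  classical
  set D := D0 + 1 with hD
  have hDk : D < k := lt_of_lt_of_le hk0 hk
  have hkD0 : (0 : ℝ) < (k0 : ℝ) - (D0 + 1) := by
    have : ((D0 + 1 : ℕ) : ℝ) < k0 := by exact_mod_cast hk0
    push_cast at this
    linarith
  have hkk : (k0 : ℝ) - (D0 + 1) ≤ (k : ℝ) - (D0 + 1) := by
    have : (k0 : ℝ) ≤ k := by exact_mod_cast hk
    linarith
  have hkD : (0 : ℝ) < (k : ℝ) - (D0 + 1) := lt_of_lt_of_le hkD0 hkk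
  have hcast : ((k - D : ℕ) : ℝ) = (k : ℝ) - (D0 + 1) := by
    rw [Nat.cast_sub hDk.le, hD]
    push_cast
    ring
  have hT0 : (0 : ℝ) ≤ M.card := Nat.cast_nonneg _
  have hmono : ∀ T' : Finset (Fin n), T' ⊆ W.erase y → T'.Nonempty →
      ((M.filter (fun f => ∃ i, ∀ v ∈ T', f v = i)).card : ℝ) ≤
        M.card * (1 / ((k0 : ℝ) - (D0 + 1))) ^ (T'.card - 1) := by
    intro T' hT' hne
    have h2 := h1 T' hT' hne
    have h3 : (((k - D) ^ (T'.card - 1) *
        (M.filter (fun f => ∃ i, ∀ v ∈ T', f v = i)).card : ℕ) : ℝ) ≤ M.card := by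
      exact_mod_cast h2
    rw [Nat.cast_mul, Nat.cast_pow, hcast] at h3
    rw [one_div, inv_pow, ← div_eq_mul_inv, le_div_iff₀ (pow_pos hkD0 _)]
    have h4 : ((k0 : ℝ) - (D0 + 1)) ^ (T'.card - 1) ≤ ((k : ℝ) - (D0 + 1)) ^ (T'.card - 1) :=
      pow_le_pow_left₀ hkD0.le hkk _
    have h5 : (0 : ℝ) ≤ (M.filter (fun f => ∃ i, ∀ v ∈ T', f v = i)).card := Nat.cast_nonneg _
    nlinarith
  have hsum : ∑ f ∈ M, bk E W k f y ≤ M.card * D0 +
      ∑ e ∈ grwn_F E W y r, (M.filter (fun f => ∃ i, ∀ v ∈ e.erase y, f v = i)).card +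
      ∑ T ∈ Finset.powersetCard (r - 1) (W.erase y),
        (M.filter (fun f => ∃ i, ∀ v ∈ T, f v = i)).card := by
    calc ∑ f ∈ M, bk E W k f y ≤ ∑ f ∈ M, (D0 +
        ((grwn_F E W y r).filter (fun e => ∃ i, ∀ v ∈ e.erase y, f v = i)).card +
        ((Finset.powersetCard (r - 1) (W.erase y)).filter
          (fun T => ∃ i, ∀ v ∈ T, f v = i)).card) :=
          Finset.sum_le_sum (fun f _ => le_trans (grwn_pt n r k E W hT y hr f)
            (Nat.add_le_add_right (Nat.add_le_add_right (hNB W y) _) _))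
      _ = _ := by
        rw [Finset.sum_add_distrib, Finset.sum_add_distrib, Finset.sum_const, smul_eq_mul]
        congr 1
        · congr 1
          simp only [Finset.card_filter]
          rw [Finset.sum_comm]
        · simp only [Finset.card_filter]
          rw [Finset.sum_comm]
  have hA : (∑ e ∈ grwn_F E W y r,
      ((M.filter (fun f => ∃ i, ∀ v ∈ e.erase y, f v = i)).card : ℝ)) ≤
      M.card * ws E r ((k0 : ℝ) - (D0 + 1)) y := by
    calc (∑ e ∈ grwn_F E W y r,
        ((M.filter (fun f => ∃ i, ∀ v ∈ e.erase y, f v = i)).card : ℝ)) ≤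
        ∑ e ∈ grwn_F E W y r, M.card * (1 / ((k0 : ℝ) - (D0 + 1))) ^ (e.card - 2) := by
          refine Finset.sum_le_sum fun e he => ?_
          unfold grwn_F at he
          obtain ⟨_, heW, hye, hc3, _⟩ := Finset.mem_filter.1 he
          have hce : (e.erase y).card = e.card - 1 := Finset.card_erase_of_mem hye
          have hne : (e.erase y).Nonempty := by
            rw [← Finset.card_pos]
            omega
          have h2 := hmono (e.erase y) (Finset.erase_subset_erase y heW) hne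
          have h3 : (e.erase y).card - 1 = e.card - 2 := by omega
          rw [h3] at h2
          exact h2
      _ = M.card * ∑ e ∈ grwn_F E W y r, (1 / ((k0 : ℝ) - (D0 + 1))) ^ (e.card - 2) := by
        rw [Finset.mul_sum]
      _ ≤ M.card * ws E r ((k0 : ℝ) - (D0 + 1)) y := by
        refine mul_le_mul_of_nonneg_left ?_ hT0
        unfold ws
        refine Finset.sum_le_sum_of_subset_of_nonneg ?_ ?_
        · intro e he
          unfold grwn_F at he
          obtain ⟨he1, _, hye, hc3, hcr⟩ := Finset.mem_filter.1 he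
          exact Finset.mem_filter.2 ⟨he1, hye, hc3, hcr⟩
        · intro e _ _
          exact pow_nonneg (div_nonneg zero_le_one hkD0.le) _
  have hB : (∑ T ∈ Finset.powersetCard (r - 1) (W.erase y),
      ((M.filter (fun f => ∃ i, ∀ v ∈ T, f v = i)).card : ℝ)) ≤
      M.card * (n.choose (r - 1) / ((k0 : ℝ) - (D0 + 1)) ^ (r - 2)) := by
    calc (∑ T ∈ Finset.powersetCard (r - 1) (W.erase y),
        ((M.filter (fun f => ∃ i, ∀ v ∈ T, f v = i)).card : ℝ)) ≤
        ∑ _T ∈ Finset.powersetCard (r - 1) (W.erase y),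
          M.card * (1 / ((k0 : ℝ) - (D0 + 1))) ^ (r - 2) := by
          refine Finset.sum_le_sum fun T hTm => ?_
          obtain ⟨hTs, hTc⟩ := Finset.mem_powersetCard.1 hTm
          have hne : T.Nonempty := by
            rw [← Finset.card_pos]
            omega
          have h2 := hmono T hTs hne
          have h3 : T.card - 1 = r - 2 := by omega
          rw [h3] at h2
          exact h2
      _ = ((W.erase y).card.choose (r - 1) : ℝ) *
          (M.card * (1 / ((k0 : ℝ) - (D0 + 1))) ^ (r - 2)) := by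
        rw [Finset.sum_const, nsmul_eq_mul, Finset.card_powersetCard]
      _ ≤ (n.choose (r - 1) : ℝ) * (M.card * (1 / ((k0 : ℝ) - (D0 + 1))) ^ (r - 2)) := by
        refine mul_le_mul_of_nonneg_right ?_
          (mul_nonneg hT0 (pow_nonneg (div_nonneg zero_le_one hkD0.le) _))
        have h2 : (W.erase y).card ≤ n := by
          refine le_trans (Finset.card_le_univ _) ?_
          rw [Fintype.card_fin]
        exact_mod_cast Nat.choose_le_choose (r - 1) h2
      _ = M.card * (n.choose (r - 1) / ((k0 : ℝ) - (D0 + 1)) ^ (r - 2)) := by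
        rw [one_div, inv_pow]
        ring
  have hreal : ((∑ f ∈ M, bk E W k f y : ℕ) : ℝ) ≤ ((D * M.card : ℕ) : ℝ) := by
    calc ((∑ f ∈ M, bk E W k f y : ℕ) : ℝ) ≤ ((M.card * D0 +
      ∑ e ∈ grwn_F E W y r, (M.filter (fun f => ∃ i, ∀ v ∈ e.erase y, f v = i)).card +
      ∑ T ∈ Finset.powersetCard (r - 1) (W.erase y),
        (M.filter (fun f => ∃ i, ∀ v ∈ T, f v = i)).card : ℕ) : ℝ) := by
          exact_mod_cast hsum
      _ = M.card * D0 + (∑ e ∈ grwn_F E W y r,
      ((M.filter (fun f => ∃ i, ∀ v ∈ e.erase y, f v = i)).card : ℝ)) +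
        (∑ T ∈ Finset.powersetCard (r - 1) (W.erase y),
      ((M.filter (fun f => ∃ i, ∀ v ∈ T, f v = i)).card : ℝ)) := by
          push_cast
          ring
      _ ≤ M.card * D0 + M.card * ws E r ((k0 : ℝ) - (D0 + 1)) y +
          M.card * (n.choose (r - 1) / ((k0 : ℝ) - (D0 + 1)) ^ (r - 2)) := by
          linarith
      _ = M.card * D0 + M.card * (ws E r ((k0 : ℝ) - (D0 + 1)) y +
          n.choose (r - 1) / ((k0 : ℝ) - (D0 + 1)) ^ (r - 2)) := by ring
      _ ≤ M.card * D0 + M.card * 1 := by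
          have := mul_le_mul_of_nonneg_left hw hT0
          linarith
      _ = ((D * M.card : ℕ) : ℝ) := by
          rw [hD]
          push_cast
          ring
  have hnat : ∑ f ∈ M, bk E W k f y ≤ D * M.card := by exact_mod_cast hreal
  have h6 : k * M.card ≤ ∑ f ∈ M, (k - bk E W k f y) + ∑ f ∈ M, bk E W k f y := by
    rw [← Finset.sum_add_distrib]
    calc k * M.card = ∑ _f ∈ M, k := by
          rw [Finset.sum_const, smul_eq_mul, mul_comm]
      _ ≤ _ := Finset.sum_le_sum fun f _ => by omega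
  have h7 : (k - D) * M.card + D * M.card = k * M.card := by
    rw [← Nat.add_mul, Nat.sub_add_cancel hDk.le]
  omega

theorem grwn_chain {n : ℕ} (E : Finset (Finset (Fin n))) (k D m : ℕ)
    (ih : ∀ W : Finset (Fin n), W.card ≤ m → ∀ y ∈ W, (k - D) * PP E (W.erase y) k ≤ PP E W k ∧
      (k - D) * AA E (W.erase y) k ≤ AA E W k) (W : Finset (Fin n)) (hW : W.card ≤ m)
    (U : Finset (Fin n)) : U ⊆ W → (k - D) ^ U.card * PP E (W \ U) k ≤ PP E W k ∧
      (k - D) ^ U.card * AA E (W \ U) k ≤ AA E W k := by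
  classical
  induction U using Finset.induction_on with
  | empty => intro _; simp
  | insert v U hv ihU =>
    intro hs
    have hvW : v ∈ W := hs (Finset.mem_insert_self _ _)
    obtain ⟨i1, i2⟩ := ihU ((Finset.subset_insert _ _).trans hs)
    have hmem : v ∈ W \ U := Finset.mem_sdiff.2 ⟨hvW, hv⟩
    have hcard : (W \ U).card ≤ m := le_trans (Finset.card_le_card Finset.sdiff_subset) hW
    have her : (W \ U).erase v = W \ insert v U := by
      ext w
      simp only [Finset.mem_erase, Finset.mem_sdiff, Finset.mem_insert, not_or]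
      tauto
    obtain ⟨c1, c2⟩ := ih (W \ U) hcard v hmem
    rw [her] at c1 c2
    rw [Finset.card_insert_of_notMem hv, pow_succ]
    constructor
    · calc (k - D) ^ U.card * (k - D) * PP E (W \ insert v U) k
          = (k - D) ^ U.card * ((k - D) * PP E (W \ insert v U) k) := by ring
        _ ≤ (k - D) ^ U.card * PP E (W \ U) k := Nat.mul_le_mul_left _ c1
        _ ≤ PP E W k := i1
    · calc (k - D) ^ U.card * (k - D) * AA E (W \ insert v U) k
          = (k - D) ^ U.card * ((k - D) * AA E (W \ insert v U) k) := by ring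
        _ ≤ (k - D) ^ U.card * AA E (W \ U) k := Nat.mul_le_mul_left _ c2
        _ ≤ AA E W k := i2

open scoped Classical in
theorem grwn_mono {n : ℕ} (E : Finset (Finset (Fin n))) (k D m : ℕ)
    (ih : ∀ W : Finset (Fin n), W.card ≤ m → ∀ y ∈ W, (k - D) * PP E (W.erase y) k ≤ PP E W k ∧
      (k - D) * AA E (W.erase y) k ≤ AA E W k) (W : Finset (Fin n)) (hW : W.card ≤ m)
    (T : Finset (Fin n)) (hTW : T ⊆ W) (hne : T.Nonempty) :
    (k - D) ^ (T.card - 1) * ((CC E W k).filter (fun f => ∃ i, ∀ v ∈ T, f v = i)).card ≤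
      PP E W k ∧
    (k - D) ^ (T.card - 1) * ((SS E W k).filter (fun f => ∃ i, ∀ v ∈ T, f v = i)).card ≤
      AA E W k := by
  classical
  obtain ⟨a, ha⟩ := hne
  have e2 : (T.erase a).card = T.card - 1 := card_erase_of_mem ha
  have hconst : ∀ f : Fin n → ℕ, (∃ i, ∀ v ∈ T, f v = i) → ∀ u ∈ T, f u = f a := by
    rintro f ⟨i, hi⟩ u hu
    rw [hi u hu, hi a ha]
  obtain ⟨h1, h3⟩ := grwn_chain E k D m ih W hW (T.erase a) ((erase_subset _ _).trans hTW)
  rw [e2] at h1 h3
  refine ⟨le_trans (Nat.mul_le_mul_left _ ?_) h1, le_trans (Nat.mul_le_mul_left _ ?_) h3⟩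
  · unfold PP
    refine Finset.card_le_card_of_injOn (grwn_r (T.erase a)) ?_ ?_
    · intro f hf
      rw [mem_coe, grwn_mf] at hf
      exact mem_coe.2 (grwn_cc E W _ k f hf.1)
    · intro f hf g hg hfg
      rw [mem_coe, grwn_mf] at hf hg
      exact grwn_inj T a f g (hconst f hf.2) (hconst g hg.2) hfg
  · unfold AA
    refine Finset.card_le_card_of_injOn (grwn_r (T.erase a)) ?_ ?_
    · intro f hf
      rw [mem_coe, grwn_mf] at hf
      exact mem_coe.2 (grwn_ss E W T k a ha hTW f hf.1 (hconst f hf.2))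
    · intro f hf g hg hfg
      rw [mem_coe, grwn_mf] at hf hg
      exact grwn_inj T a f g (hconst f hf.2) (hconst g hg.2) hfg

theorem st_GRW (hCNT : ST_CNT) : ST_GRW := by
  classical
  intro n D0 r k0 E hT hr hk0 hNB hw k hk
  have key : ∀ m : ℕ, ∀ W : Finset (Fin n), W.card ≤ m → ∀ y ∈ W,
      (k - (D0 + 1)) * PP E (W.erase y) k ≤ PP E W k ∧
      (k - (D0 + 1)) * AA E (W.erase y) k ≤ AA E W k := by
    intro m
    induction m with
    | zero =>
      intro W hW y hy
      have : 0 < W.card := Finset.card_pos.2 ⟨y, hy⟩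
      omega
    | succ m ih =>
      intro W hW y hy
      have hc : (W.erase y).card ≤ m := by
        rw [Finset.card_erase_of_mem hy]
        omega
      obtain ⟨c1, c2⟩ := hCNT n k E W y hT hy
      constructor
      · rw [c1]
        exact grwn_gen n D0 r k0 k E W hT hr hk0 hk hNB y hy (hw y) (CC E (W.erase y) k)
          (fun T' hT' hne => (grwn_mono E k (D0 + 1) m ih (W.erase y) hc T' hT' hne).1)
      · refine le_trans ?_ c2
        exact grwn_gen n D0 r k0 k E W hT hr hk0 hk hNB y hy (hw y) (SS E (W.erase y) k)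
          (fun T' hT' hne => (grwn_mono E k (D0 + 1) m ih (W.erase y) hc T' hT' hne).2)
  exact fun W y hy => key W.card W le_rfl y hy

end Pool.Agent.Helper5.WD
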