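import Pool.Agent.Helper40.WD.Stmts

set_option autoImplicit false

namespace Pool.Agent.Helper9.WD

open Pool.Agent.Helper40.WD Filter Topology

theorem st_XCP : ST_XCP := by
  intro D
  have hc : ∀ (n k : ℕ) (g : Fin (4 * mm k)), Continuous (fun φ : VV => φ n k g) := by
    intro n k g
    have h1 : Continuous (fun φ : VV => φ n) := continuous_apply n
    have h2 : Continuous (fun p : (∀ k : ℕ, Fin (4 * mm k) → ℝ) => p k) := continuous_apply k
    have h3 : Continuous (fun p : (Fin (4 * mm k) → ℝ) => p g) := continuous_apply g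
    exact h3.comp (h2.comp h1)
  constructor
  · have hK : IsCompact (Set.pi Set.univ (fun _ : ℕ => Set.pi Set.univ (fun k : ℕ =>
        Set.pi Set.univ (fun _ : Fin (4 * mm k) => Set.Icc (-1 : ℝ) 1)))) :=
      isCompact_univ_pi (fun _ => isCompact_univ_pi (fun _ => isCompact_univ_pi
        (fun _ => isCompact_Icc)))
    refine hK.of_isClosed_subset ?_ ?_
    · have e : XX D = (⋂ (n : ℕ) (k : ℕ) (g : Fin (4 * mm k)), {φ : VV | |φ n k g| ≤ 1}) ∩
        ((⋂ (n : ℕ) (k : ℕ) (g : Fin (4 * mm k)) (_ : n < k), {φ : VV | φ n k g = 0}) ∩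
        ((⋂ (n : ℕ) (k : ℕ) (j : Fin (mm (k + 1))) (_ : k + 1 ≤ n), {φ : VV |
          3 * ∑ g, D.T k j g * φ n k g = ∑ g, D.S (k + 1) j g * φ n (k + 1) g}) ∩
        (⋂ (c : ℕ → Gi) (_ : ∀ n, (c n).1 ≤ n) (M : ℕ), {φ : VV |
          ∑ n ∈ Finset.range M,
            |φ (n + 1) (c n).1 (c n).2 - φ n (c n).1 (c n).2| ≤ 1}))) := by
        ext φ
        simp only [XX, Set.mem_setOf_eq, Set.mem_inter_iff, Set.mem_iInter]
      rw [e]
      refine IsClosed.inter ?_ (IsClosed.inter ?_ (IsClosed.inter ?_ ?_))
      · refine isClosed_iInter fun n => isClosed_iInter fun k => isClosed_iInter fun g => ?_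
        exact isClosed_le (hc n k g).abs continuous_const
      · refine isClosed_iInter fun n => isClosed_iInter fun k => isClosed_iInter fun g =>
          isClosed_iInter fun _ => ?_
        exact isClosed_eq (hc n k g) continuous_const
      · refine isClosed_iInter fun n => isClosed_iInter fun k => isClosed_iInter fun j =>
          isClosed_iInter fun _ => ?_
        apply isClosed_eq
        · exact continuous_const.mul (continuous_finsetSum _ fun g _ =>
            continuous_const.mul (hc n k g))
        · exact continuous_finsetSum _ fun g _ => continuous_const.mul (hc n (k + 1) g)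
      · refine isClosed_iInter fun c => isClosed_iInter fun _ => isClosed_iInter fun M => ?_
        apply isClosed_le _ continuous_const
        exact continuous_finsetSum _ fun n _ => ((hc _ _ _).sub (hc _ _ _)).abs
    · rintro φ ⟨h1, -⟩ n - k - g -
      exact abs_le.1 (h1 n k g)
  · rintro φ ⟨h1, h2, h3, h4⟩ ψ ⟨k1, k2, k3, k4⟩ a b ha hb hab
    refine ⟨?_, ?_, ?_, ?_⟩
    · intro n k g
      change |a * φ n k g + b * ψ n k g| ≤ 1
      calc |a * φ n k g + b * ψ n k g| ≤ |a * φ n k g| + |b * ψ n k g| := abs_add_le _ _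
        _ = a * |φ n k g| + b * |ψ n k g| := by rw [abs_mul, abs_mul, abs_of_nonneg ha,
            abs_of_nonneg hb]
        _ ≤ a * 1 + b * 1 := add_le_add (mul_le_mul_of_nonneg_left (h1 n k g) ha)
            (mul_le_mul_of_nonneg_left (k1 n k g) hb)
        _ = 1 := by linarith
    · intro n k g hnk
      change a * φ n k g + b * ψ n k g = 0
      rw [h2 n k g hnk, k2 n k g hnk]
      ring
    · intro n k j hk
      change 3 * ∑ g, D.T k j g * (a * φ n k g + b * ψ n k g) =
        ∑ g, D.S (k + 1) j g * (a * φ n (k + 1) g + b * ψ n (k + 1) g)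
      have e1 := h3 n k j hk
      have e2 := k3 n k j hk
      have e3 : ∑ g, D.T k j g * (a * φ n k g + b * ψ n k g) =
          a * ∑ g, D.T k j g * φ n k g + b * ∑ g, D.T k j g * ψ n k g := by
        rw [Finset.mul_sum, Finset.mul_sum, ← Finset.sum_add_distrib]
        exact Finset.sum_congr rfl fun g _ => by ring
      have e4 : ∑ g, D.S (k + 1) j g * (a * φ n (k + 1) g + b * ψ n (k + 1) g) =
          a * ∑ g, D.S (k + 1) j g * φ n (k + 1) g +
            b * ∑ g, D.S (k + 1) j g * ψ n (k + 1) g := by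
        rw [Finset.mul_sum, Finset.mul_sum, ← Finset.sum_add_distrib]
        exact Finset.sum_congr rfl fun g _ => by ring
      rw [e3, e4, ← e1, ← e2]
      ring
    · intro c hcn M
      have e1 := h4 c hcn M
      have e2 := k4 c hcn M
      calc ∑ n ∈ Finset.range M, |(a • φ + b • ψ) (n + 1) (c n).1 (c n).2 -
            (a • φ + b • ψ) n (c n).1 (c n).2|
          ≤ ∑ n ∈ Finset.range M, (a * |φ (n + 1) (c n).1 (c n).2 - φ n (c n).1 (c n).2| +
            b * |ψ (n + 1) (c n).1 (c n).2 - ψ n (c n).1 (c n).2|) := by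
            apply Finset.sum_le_sum
            intro n _
            change |(a * φ (n + 1) (c n).1 (c n).2 + b * ψ (n + 1) (c n).1 (c n).2) -
              (a * φ n (c n).1 (c n).2 + b * ψ n (c n).1 (c n).2)| ≤ _
            have e : (a * φ (n + 1) (c n).1 (c n).2 + b * ψ (n + 1) (c n).1 (c n).2) -
              (a * φ n (c n).1 (c n).2 + b * ψ n (c n).1 (c n).2) =
              a * (φ (n + 1) (c n).1 (c n).2 - φ n (c n).1 (c n).2) +
              b * (ψ (n + 1) (c n).1 (c n).2 - ψ n (c n).1 (c n).2) := by ring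
            rw [e]
            refine (abs_add_le _ _).trans ?_
            rw [abs_mul, abs_mul, abs_of_nonneg ha, abs_of_nonneg hb]
        _ = a * ∑ n ∈ Finset.range M, |φ (n + 1) (c n).1 (c n).2 - φ n (c n).1 (c n).2| +
            b * ∑ n ∈ Finset.range M, |ψ (n + 1) (c n).1 (c n).2 - ψ n (c n).1 (c n).2| := by
            rw [Finset.sum_add_distrib, Finset.mul_sum, Finset.mul_sum]
        _ ≤ a * 1 + b * 1 := add_le_add (mul_le_mul_of_nonneg_left e1 ha)
            (mul_le_mul_of_nonneg_left e2 hb)
        _ = 1 := by linarith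

end Pool.Agent.Helper9.WD
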